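import Mathlib

open Finset

namespace Pool.Agent.H86.NE

variable {V : Type*}

/-- number of pairs `(a, b)` in `A × B` which are adjacent -/
noncomputable def pairs (G : SimpleGraph V) (A B : Finset V) : ℕ := by
  classical exact ((A ×ˢ B).filter fun p => G.Adj p.1 p.2).card

/-- number of neighbours of `y` in `A` -/
noncomputable def dg (G : SimpleGraph V) (A : Finset V) (y : V) : ℕ := by
  classical exact (A.filter fun a => G.Adj a y).card

theorem pairs_eq (G : SimpleGraph V) (A B : Finset V) :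
    pairs G A B = ∑ y ∈ B, dg G A y := by
  classical
  unfold pairs dg
  rw [card_filter, sum_product_right]
  refine sum_congr rfl fun y _ => ?_
  rw [card_filter]

theorem free_sets {r : ℕ} {G : SimpleGraph V} 
    (h : (completeBipartiteGraph (Fin r) (Fin r)).Free G) (S T : Finset V)
    (hS : S.card = r) (hT : T.card = r) : ∃ x ∈ S, ∃ y ∈ T, ¬ G.Adj x y := by
  classical
  by_contra hcon
  push Not at hcon
  apply h
  have eS : Fin r ≃ S := (Finset.equivFinOfCardEq hS).symm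
  have eT : Fin r ≃ T := (Finset.equivFinOfCardEq hT).symm
  refine ⟨⟨⟨Sum.elim (fun i => (eS i : V)) (fun i => (eT i : V)), ?_⟩, ?_⟩⟩
  · intro a b hab
    rcases a with a | a <;> rcases b with b | b
    · simp at hab
    · simpa using hcon _ (eS a).2 _ (eT b).2
    · simpa using (hcon _ (eS b).2 _ (eT a).2).symm
    · simp at hab
  · rintro (a | a) (b | b) hab
    · simp only [RelHom.coeFn_mk, Sum.elim_inl] at hab
      exact congrArg Sum.inl (eS.injective (Subtype.ext hab))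
    · simp only [RelHom.coeFn_mk, Sum.elim_inl, Sum.elim_inr] at hab
      exact absurd (hcon _ (eS a).2 _ (eT b).2) (by rw [hab]; exact G.loopless.irrefl _)
    · simp only [RelHom.coeFn_mk, Sum.elim_inl, Sum.elim_inr] at hab
      exact absurd (hcon _ (eS b).2 _ (eT a).2) (by rw [hab]; exact G.loopless.irrefl _)
    · simp only [RelHom.coeFn_mk, Sum.elim_inr] at hab
      exact congrArg Sum.inr (eT.injective (Subtype.ext hab))

/-- double counting of the `r`-sets -/
theorem count_sets {r : ℕ} {G : SimpleGraph V} (hr : 1 ≤ r)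
    (h : (completeBipartiteGraph (Fin r) (Fin r)).Free G) (A B : Finset V) :
    ∑ y ∈ B, (dg G A y).choose r ≤ (r - 1) * A.card.choose r := by
  classical
  have h1 : ∀ y ∈ B, (dg G A y).choose r
      = ∑ S ∈ A.powersetCard r, if ∀ x ∈ S, G.Adj x y then 1 else 0 := by
    intro y _
    rw [← card_filter]
    unfold dg
    rw [← card_powersetCard]
    congr 1
    ext S
    simp only [mem_powersetCard, mem_filter, subset_iff]
    constructor
    · rintro ⟨h1, h2⟩
      exact ⟨⟨fun x hx => (h1 hx).1, h2⟩, fun x hx => (h1 hx).2⟩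
    · rintro ⟨⟨h1, h2⟩, h3⟩
      exact ⟨fun x hx => ⟨h1 hx, h3 x hx⟩, h2⟩
  rw [sum_congr rfl h1, sum_comm, ← card_powersetCard, mul_comm, ← smul_eq_mul]
  refine sum_le_card_nsmul _ _ _ fun S hS => ?_
  rw [← card_filter]
  by_contra hcon
  push Not at hcon
  obtain ⟨T, hT1, hT2⟩ := exists_subset_card_eq (s := B.filter fun y => ∀ x ∈ S, G.Adj x y) 
    (n := r) (by omega)
  obtain ⟨x, hx, y, hy, hxy⟩ := free_sets h S T (mem_powersetCard.1 hS).2 hT2
  exact hxy ((mem_filter.1 (hT1 hy)).2 x hx)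

/-- `d ^ r ≤ 2 ^ (r-1) (r! binom(d,r) + (r-1) ^ r)`-/
theorem pow_le_choose (d r : ℕ) (hr : 1 ≤ r) :
    d ^ r ≤ 2 ^ (r - 1) * (r.factorial * d.choose r + (r - 1) ^ r) := by
  have h1 : (d - (r - 1)) ^ r ≤ r.factorial * d.choose r := by
    rw [← Nat.descFactorial_eq_factorial_mul_choose]
    have := Nat.pow_sub_le_descFactorial d r
    refine le_trans (Nat.pow_le_pow_left (by omega) r) this
  have h2 : d ≤ (d - (r - 1)) + (r - 1) := by omega
  calc d ^ r ≤ ((d - (r - 1)) + (r - 1)) ^ r := Nat.pow_le_pow_left h2 r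
    _ ≤ 2 ^ (r - 1) * ((d - (r - 1)) ^ r + (r - 1) ^ r) := add_pow_le (by positivity) (by positivity) r
    _ ≤ _ := by gcongr

theorem sum_pow_le {r : ℕ} {G : SimpleGraph V} (hr : 1 ≤ r)
    (h : (completeBipartiteGraph (Fin r) (Fin r)).Free G) (A B : Finset V) :
    ∑ y ∈ B, (dg G A y) ^ r ≤ 2 ^ (r - 1) * ((r - 1) * A.card ^ r + (r - 1) ^ r * B.card) := by
  calc ∑ y ∈ B, (dg G A y) ^ r 
      ≤ ∑ y ∈ B, 2 ^ (r - 1) * (r.factorial * (dg G A y).choose r + (r - 1) ^ r) := 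
        sum_le_sum fun y _ => pow_le_choose _ r hr
    _ = 2 ^ (r - 1) * (r.factorial * ∑ y ∈ B, (dg G A y).choose r + (r - 1) ^ r * B.card) := by
        rw [← mul_sum, sum_add_distrib, ← mul_sum, sum_const, smul_eq_mul, mul_comm B.card]
    _ ≤ 2 ^ (r - 1) * (r.factorial * ((r - 1) * A.card.choose r) + (r - 1) ^ r * B.card) := by
        gcongr; exact count_sets hr h A B
    _ = 2 ^ (r - 1) * ((r - 1) * A.card.descFactorial r + (r - 1) ^ r * B.card) := by
        rw [Nat.descFactorial_eq_factorial_mul_choose]; ring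
    _ ≤ _ := by gcongr; exact Nat.descFactorial_le_pow _ _

theorem multiscale {r : ℕ} {G : SimpleGraph V} (hr : 1 ≤ r)
    (h : (completeBipartiteGraph (Fin r) (Fin r)).Free G) (A : Finset V) {ι : Type*} (I : Finset ι)
    (B : ι → Finset V) (hB : ∀ i ∈ I, ∀ j ∈ I, i ≠ j → Disjoint (B i) (B j)) :
    ∑ i ∈ I, (pairs G A (B i) : ℝ) ^ r / ((B i).card : ℝ) ^ (r - 1)
      ≤ (2 * r) ^ r * ((A.card : ℝ) ^ r + ∑ i ∈ I, ((B i).card : ℝ)) := by
  classical
  have h1 : ∀ i ∈ I, (pairs G A (B i) : ℝ) ^ r / ((B i).card : ℝ) ^ (r - 1)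
      ≤ ∑ y ∈ B i, (dg G A y : ℝ) ^ r := by
    intro i _
    rw [pairs_eq]
    obtain ⟨n, rfl⟩ : ∃ n, r = n + 1 := ⟨r - 1, by omega⟩
    have := pow_sum_div_card_le_sum_pow (s := B i) (f := fun y => (dg G A y : ℝ)) 
      (fun _ _ => by positivity) n
    simpa using this
  have h2 : ∑ i ∈ I, ∑ y ∈ B i, (dg G A y : ℝ) ^ r = ∑ y ∈ I.biUnion B, (dg G A y : ℝ) ^ r :=
    (sum_biUnion fun i hi j hj hij => hB i hi j hj hij).symm
  have h3 : ((I.biUnion B).card : ℝ) = ∑ i ∈ I, ((B i).card : ℝ) := by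
    rw [card_biUnion fun i hi j hj hij => hB i hi j hj hij]
    push_cast; rfl
  have h4 : ∑ y ∈ I.biUnion B, (dg G A y : ℝ) ^ r
      ≤ 2 ^ (r - 1) * ((r - 1 : ℕ) * (A.card : ℝ) ^ r + (r - 1 : ℕ) ^ r * ((I.biUnion B).card : ℝ)) := by
    exact_mod_cast sum_pow_le hr h A (I.biUnion B)
  have h5 : (2:ℝ) ^ (r - 1) ≤ 2 ^ r := pow_le_pow_right₀ (by norm_num) (by omega)
  have h6 : ((r - 1 : ℕ) : ℝ) ≤ (r:ℝ) := by exact_mod_cast (by omega : r - 1 ≤ r)
  have h7 : ((r - 1 : ℕ) : ℝ) ≤ (r:ℝ) ^ r := by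
    refine h6.trans ?_
    exact_mod_cast Nat.le_self_pow (by omega) r
  calc _ ≤ ∑ i ∈ I, ∑ y ∈ B i, (dg G A y : ℝ) ^ r := sum_le_sum h1
    _ ≤ 2 ^ (r - 1) * ((r - 1 : ℕ) * (A.card : ℝ) ^ r + (r - 1 : ℕ) ^ r * ((I.biUnion B).card : ℝ)) := by
        rw [h2]; exact h4
    _ ≤ 2 ^ r * ((r:ℝ) ^ r * (A.card : ℝ) ^ r + (r:ℝ) ^ r * ((I.biUnion B).card : ℝ)) := by
        gcongr
    _ = _ := by rw [h3, mul_pow]; ring

/-- nested sets -/
theorem nested {r : ℕ} {G : SimpleGraph V} (hr : 2 ≤ r)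
    (h : (completeBipartiteGraph (Fin r) (Fin r)).Free G) (k : ℕ) (W : ℕ → Finset V)
    (hsub : ∀ i < k, W i ⊆ W (i + 1)) (hdbl : ∀ i < k, 2 * (W i).card ≤ (W (i + 1)).card)
    (h0 : (W 0).Nonempty) (hk : (W k).card ≤ (W 0).card ^ r) (c : ℝ) (hc : 0 < c)
    (hdeg : ∀ i ≤ k, c * (W 0).card * ((W i).card : ℝ) ^ (1 - 1 / (r : ℝ)) ≤ pairs G (W 0) (W i)) :
    ((k : ℝ) + 1) * c ^ r ≤ 2 * (8 * r) ^ r := by
  classical
  have hr0 : (0:ℝ) < r := by exact_mod_cast (by omega : 0 < r)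
  have hmono : ∀ i j, i ≤ j → j ≤ k → W i ⊆ W j := by
    intro i j hij
    induction j, hij using Nat.le_induction with
    | base => intro _; exact subset_rfl
    | succ j _ ih => intro hj; exact (ih (by omega)).trans (hsub j (by omega))
  set m : ℝ := ((W 0).card : ℝ) with hm
  have hm0 : 0 < m := by rw [hm]; exact_mod_cast h0.card_pos
  -- the blocks
  set B : ℕ → Finset V := fun i => if i = 0 then W 0 else W i \ W (i - 1) with hBdef
  have hBW : ∀ i, B i ⊆ W i := by
    intro i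
    simp only [hBdef]
    split_ifs with hi
    · rw [hi]
    · exact sdiff_subset
  have hdisj : ∀ i ∈ range (k + 1), ∀ j ∈ range (k + 1), i ≠ j → Disjoint (B i) (B j) := by
    have key : ∀ i j, i < j → j ≤ k → Disjoint (B i) (B j) := by
      intro i j hij hj
      have h1 : B j = W j \ W (j - 1) := by simp only [hBdef]; rw [if_neg (by omega)]
      rw [h1]
      refine disjoint_sdiff.mono_left ((hBW i).trans (hmono i (j-1) (by omega) (by omega)))
    intro i hi j hj hij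
    rw [mem_range] at hi hj
    rcases lt_or_gt_of_ne hij with h1 | h1
    · exact key i j h1 (by omega)
    · exact (key j i h1 (by omega)).symm
  have hunion : ∀ i ≤ k, (range (i + 1)).biUnion B = W i := by
    intro i
    induction i with
    | zero => intro _; simp [hBdef]
    | succ i ih =>
      intro hi
      rw [range_add_one, biUnion_insert, ih (by omega)]
      have h1 : B (i + 1) = W (i + 1) \ W i := by simp [hBdef]
      rw [h1]
      exact sdiff_union_of_subset (hsub i (by omega))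
  have hpairs : ∀ i ≤ k, (pairs G (W 0) (W i) : ℝ) = ∑ j ∈ range (i + 1), (pairs G (W 0) (B j) : ℝ) := by
    intro i hi
    rw [← hunion i hi]
    rw [pairs_eq, sum_biUnion]
    · push_cast
      refine sum_congr rfl fun j _ => ?_
      rw [pairs_eq]; push_cast; rfl
    · intro a ha b hb hab
      rw [mem_coe, mem_range] at ha hb
      exact hdisj a (mem_range.2 (by omega)) b (mem_range.2 (by omega)) hab
  have hWpos : ∀ i ≤ k, (0:ℝ) < ((W i).card : ℝ) := by
    intro i hi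
    have := (h0.mono (hmono 0 i (Nat.zero_le _) hi)).card_pos
    exact_mod_cast this
  have hgrow : ∀ i j, i ≤ j → j ≤ k → (2:ℝ) ^ (j - i) * ((W i).card : ℝ) ≤ ((W j).card : ℝ) := by
    intro i j hij
    induction j, hij using Nat.le_induction with
    | base => intro _; simp
    | succ j hj ih =>
      intro hj'
      have h1 := ih (by omega)
      have h2 : (2:ℝ) * ((W j).card : ℝ) ≤ ((W (j+1)).card : ℝ) := by exact_mod_cast hdbl j (by omega)
      have h3 : j + 1 - i = (j - i) + 1 := by omega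
      rw [h3, pow_succ]
      nlinarith
  -- normalised numbers of edges
  set a : ℕ → ℝ := fun j => pairs G (W 0) (B j) / (m * ((W j).card : ℝ) ^ (1 - 1 / (r : ℝ))) with ha
  have ha0 : ∀ j, 0 ≤ a j := fun j => by positivity
  have hexp : (0:ℝ) ≤ 1 - 1 / (r : ℝ) := by
    rw [sub_nonneg, div_le_one hr0]; exact_mod_cast (by omega : 1 ≤ r)
  have hexp2 : (1:ℝ) / 2 ≤ 1 - 1 / (r : ℝ) := by
    have : (1:ℝ) / r ≤ 1 / 2 := one_div_le_one_div_of_le (by norm_num) (by exact_mod_cast hr)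
    linarith
  have hA : ∑ j ∈ range (k + 1), a j ^ r ≤ 2 * (2 * r) ^ r := by
    have h1 := multiscale (by omega) h (W 0) (range (k + 1)) B hdisj
    have h2 : ∑ i ∈ range (k + 1), ((B i).card : ℝ) ≤ m ^ r := by
      have : ∑ i ∈ range (k + 1), (B i).card = (W k).card := by
        rw [← hunion k le_rfl, card_biUnion fun i hi j hj hij => hdisj i hi j hj hij]
      have h3 : ∑ i ∈ range (k + 1), ((B i).card : ℝ) = ((W k).card : ℝ) := by exact_mod_cast this
      rw [h3, hm]; exact_mod_cast hk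
    have h3 : ∀ j ∈ range (k + 1), a j ^ r * m ^ r ≤
        (pairs G (W 0) (B j) : ℝ) ^ r / ((B j).card : ℝ) ^ (r - 1) := by
      intro j hj
      rw [mem_range] at hj
      have hWj := hWpos j (by omega)
      have h5 : (((W j).card : ℝ) ^ (1 - 1 / (r : ℝ))) ^ r = ((W j).card : ℝ) ^ (r - 1) := by
        rw [← Real.rpow_natCast, ← Real.rpow_mul hWj.le, ← Real.rpow_natCast]
        congr 1
        rw [Nat.cast_sub (by omega)]
        field_simp
        simp
      have h6 : a j ^ r * m ^ r = (pairs G (W 0) (B j) : ℝ) ^ r / ((W j).card : ℝ) ^ (r - 1) := by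
        simp only [ha]
        rw [div_pow, mul_pow, h5]
        field_simp
      rw [h6]
      rcases (B j).eq_empty_or_nonempty with hBe | hBe
      · have : pairs G (W 0) (B j) = 0 := by rw [hBe, pairs_eq]; simp
        rw [this]; simp [show r ≠ 0 by omega]
      · have hb : (0:ℝ) < ((B j).card : ℝ) := by exact_mod_cast hBe.card_pos
        gcongr
        exact hBW j
    have h4 : (∑ j ∈ range (k + 1), a j ^ r) * m ^ r ≤ (2 * (2 * r) ^ r) * m ^ r := by
      rw [sum_mul]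
      refine (sum_le_sum h3).trans (h1.trans ?_)
      have : (2 * (r:ℝ)) ^ r * (m ^ r + ∑ i ∈ range (k + 1), ((B i).card : ℝ)) 
          ≤ (2 * (r:ℝ)) ^ r * (m ^ r + m ^ r) := by gcongr
      refine this.trans (le_of_eq (by ring))
    exact le_of_mul_le_mul_right h4 (by positivity)
  -- each scale
  set q : ℝ := (2:ℝ) ^ (-(1:ℝ) / 2) with hq
  have hq0 : 0 < q := by positivity
  have hq1 : q ≤ 3 / 4 := by
    have h1 : q ^ 2 = 1 / 2 := by
      rw [hq, ← Real.rpow_natCast, ← Real.rpow_mul (by norm_num)]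
      norm_num
    nlinarith
  have hscale : ∀ i ≤ k, c ≤ ∑ j ∈ range (i + 1), a j * q ^ (i - j) := by
    intro i hi
    have h1 := hdeg i hi
    rw [hpairs i hi] at h1
    have hWi := hWpos i hi
    have hWi' : 0 < ((W i).card : ℝ) ^ (1 - 1 / (r : ℝ)) := by positivity
    have h2 : ∑ j ∈ range (i + 1), (pairs G (W 0) (B j) : ℝ) 
        ≤ (∑ j ∈ range (i + 1), a j * q ^ (i - j)) * (m * ((W i).card : ℝ) ^ (1 - 1 / (r : ℝ))) := by
      rw [sum_mul]
      refine sum_le_sum fun j hj => ?_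
      rw [mem_range] at hj
      have hWj := hWpos j (by omega)
      have hWj' : 0 < ((W j).card : ℝ) ^ (1 - 1 / (r : ℝ)) := by positivity
      have h3 : (pairs G (W 0) (B j) : ℝ) = a j * (m * ((W j).card : ℝ) ^ (1 - 1 / (r : ℝ))) := by
        simp only [ha]; field_simp
      have h4 : ((W j).card : ℝ) ^ (1 - 1 / (r : ℝ)) 
          ≤ q ^ (i - j) * ((W i).card : ℝ) ^ (1 - 1 / (r : ℝ)) := by
        have h5 := hgrow j i (by omega) hi
        have h6 : ((2:ℝ) ^ (i - j) * ((W j).card : ℝ)) ^ (1 - 1 / (r : ℝ)) 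
            ≤ ((W i).card : ℝ) ^ (1 - 1 / (r : ℝ)) := Real.rpow_le_rpow (by positivity) h5 hexp
        rw [Real.mul_rpow (by positivity) (by positivity)] at h6
        have h7 : 1 ≤ q ^ (i - j) * ((2:ℝ) ^ (i - j)) ^ (1 - 1 / (r : ℝ)) := by
          rw [hq, ← Real.rpow_natCast, ← Real.rpow_mul (by norm_num), ← Real.rpow_natCast, 
            ← Real.rpow_mul (by norm_num), ← Real.rpow_add (by norm_num)]
          apply Real.one_le_rpow (by norm_num)
          have : (0:ℝ) ≤ ((i - j : ℕ) : ℝ) := by positivity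
          nlinarith
        calc ((W j).card : ℝ) ^ (1 - 1 / (r : ℝ)) 
            ≤ (q ^ (i - j) * ((2:ℝ) ^ (i - j)) ^ (1 - 1 / (r : ℝ))) * ((W j).card : ℝ) ^ (1 - 1 / (r : ℝ)) := 
              le_mul_of_one_le_left hWj'.le h7
          _ = q ^ (i - j) * (((2:ℝ) ^ (i - j)) ^ (1 - 1 / (r : ℝ)) * ((W j).card : ℝ) ^ (1 - 1 / (r : ℝ))) := by ring
          _ ≤ _ := by gcongr
      rw [h3]
      calc a j * (m * ((W j).card : ℝ) ^ (1 - 1 / (r : ℝ))) 
          ≤ a j * (m * (q ^ (i - j) * ((W i).card : ℝ) ^ (1 - 1 / (r : ℝ)))) :=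
            mul_le_mul_of_nonneg_left (mul_le_mul_of_nonneg_left h4 hm0.le) (ha0 j)
        _ = _ := by ring
    have h5 : c * (m * ((W i).card : ℝ) ^ (1 - 1 / (r : ℝ))) 
        ≤ (∑ j ∈ range (i + 1), a j * q ^ (i - j)) * (m * ((W i).card : ℝ) ^ (1 - 1 / (r : ℝ))) := by
      rw [← mul_assoc]; exact h1.trans h2
    exact le_of_mul_le_mul_right h5 (by positivity)
  have hsum : ((k:ℝ) + 1) * c ≤ 4 * ∑ j ∈ range (k + 1), a j := by
    calc ((k:ℝ) + 1) * c = ∑ i ∈ range (k + 1), c := by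
          rw [sum_const, card_range, nsmul_eq_mul]; push_cast; rfl
      _ ≤ ∑ i ∈ range (k + 1), ∑ j ∈ range (i + 1), a j * q ^ (i - j) := 
          sum_le_sum fun i hi => hscale i (Nat.lt_succ_iff.1 (mem_range.1 hi))
      _ = ∑ i ∈ range (k + 1), ∑ j ∈ range (k + 1), if j ≤ i then a j * q ^ (i - j) else 0 := by
          refine sum_congr rfl fun i hi => ?_
          rw [mem_range] at hi
          rw [← sum_filter]
          refine sum_congr ?_ fun _ _ => rfl
          ext j; simp only [mem_range, mem_filter]; omega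
      _ = ∑ j ∈ range (k + 1), a j * ∑ i ∈ range (k + 1), if j ≤ i then q ^ (i - j) else 0 := by
          rw [sum_comm]
          refine sum_congr rfl fun j _ => ?_
          rw [mul_sum]
          refine sum_congr rfl fun i _ => ?_
          rw [mul_ite, mul_zero]
      _ ≤ ∑ j ∈ range (k + 1), a j * 4 := by
          refine sum_le_sum fun j hj => ?_
          rw [mem_range] at hj
          refine mul_le_mul_of_nonneg_left ?_ (ha0 j)
          rw [← sum_filter]
          have h1 : (range (k + 1)).filter (fun i => j ≤ i) = Ico j (k + 1) := by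
            ext i; simp only [mem_range, mem_filter, mem_Ico]; omega
          rw [h1, sum_Ico_eq_sum_range]
          simp only [Nat.add_sub_cancel_left]
          have h2 : ∑ x ∈ range (k + 1 - j), q ^ x ≤ 1 / (1 - q) := by
            rw [geom_sum_eq (by linarith)]
            rw [← neg_div_neg_eq, neg_sub, neg_sub]
            gcongr
            · linarith
            · have : 0 ≤ q ^ (k + 1 - j) := by positivity
              linarith
          refine h2.trans ?_
          rw [div_le_iff₀ (by linarith)]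
          linarith
      _ = _ := by rw [← sum_mul, mul_comm]
  have hpm : (∑ j ∈ range (k + 1), a j) ^ r ≤ ((k:ℝ) + 1) ^ (r - 1) * ∑ j ∈ range (k + 1), a j ^ r := by
    obtain ⟨n, rfl⟩ : ∃ n, r = n + 1 := ⟨r - 1, by omega⟩
    have := pow_sum_div_card_le_sum_pow (s := range (k + 1)) (f := a) (fun j _ => ha0 j) n
    rw [card_range, div_le_iff₀ (by positivity)] at this
    push_cast at this
    simpa [mul_comm] using this
  have hk1 : (0:ℝ) < (k:ℝ) + 1 := by positivity
  have hfin : (((k:ℝ) + 1) * c) ^ r ≤ 4 ^ r * (((k:ℝ) + 1) ^ (r - 1) * (2 * (2 * r) ^ r)) := by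
    calc (((k:ℝ) + 1) * c) ^ r ≤ (4 * ∑ j ∈ range (k + 1), a j) ^ r := by gcongr
      _ = 4 ^ r * (∑ j ∈ range (k + 1), a j) ^ r := by rw [mul_pow]
      _ ≤ 4 ^ r * (((k:ℝ) + 1) ^ (r - 1) * ∑ j ∈ range (k + 1), a j ^ r) := by gcongr
      _ ≤ _ := by gcongr
  have h8 : ((k:ℝ) + 1) ^ r = ((k:ℝ) + 1) ^ (r - 1) * ((k:ℝ) + 1) := by
    rw [← pow_succ]; congr 1; omega
  rw [mul_pow, h8] at hfin
  have h9 : ((k:ℝ) + 1) ^ (r - 1) * (((k:ℝ) + 1) * c ^ r) ≤ ((k:ℝ) + 1) ^ (r - 1) * (2 * (8 * r) ^ r) := by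
    calc ((k:ℝ) + 1) ^ (r - 1) * (((k:ℝ) + 1) * c ^ r) = ((k:ℝ) + 1) ^ (r - 1) * ((k:ℝ) + 1) * c ^ r := by ring
      _ ≤ 4 ^ r * (((k:ℝ) + 1) ^ (r - 1) * (2 * (2 * r) ^ r)) := hfin
      _ = ((k:ℝ) + 1) ^ (r - 1) * (2 * (4 * (2 * r)) ^ r) := by rw [mul_pow 4]; ring
      _ = _ := by ring_nf
  exact le_of_mul_le_mul_left h9 (by positivity)


/-- infinite graphs -/
theorem infinite_graph {r : ℕ} {G : SimpleGraph ℕ} (hr : 2 ≤ r)
    (h : (completeBipartiteGraph (Fin r) (Fin r)).Free G) (m : ℕ) (hm : 2 ≤ m) :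
    ∃ n, m ≤ n ∧ n ≤ m ^ r ∧ (pairs G (range m) (range n) : ℝ) 
      ≤ 16 * r * m * (n : ℝ) ^ (1 - 1 / (r : ℝ)) / (Real.log m) ^ (1 / (r : ℝ)) := by
  by_contra hcon
  push Not at hcon
  have hr0 : (0:ℝ) < r := by exact_mod_cast (by omega : 0 < r)
  have hm1 : (1:ℝ) < m := by exact_mod_cast (by omega : 1 < m)
  have hlog : 0 < Real.log m := Real.log_pos hm1
  set L : ℝ := (Real.log m) ^ (1 / (r : ℝ)) with hL
  have hL0 : 0 < L := by positivity
  have hLr : L ^ r = Real.log m := by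
    rw [hL, ← Real.rpow_natCast, ← Real.rpow_mul hlog.le]
    rw [one_div_mul_cancel hr0.ne', Real.rpow_one]
  set k := Nat.log 2 (m ^ (r - 1)) with hk
  have hne : m ^ (r - 1) ≠ 0 := pow_ne_zero _ (by omega)
  have hk1 : 2 ^ k ≤ m ^ (r - 1) := Nat.pow_log_le_self 2 hne
  have hk2 : m ^ (r - 1) < 2 ^ (k + 1) := Nat.lt_pow_succ_log_self (by norm_num) _
  have hmr : m * m ^ (r - 1) = m ^ r := by rw [← pow_succ']; congr 1; omega
  have hle : ∀ i ≤ k, m * 2 ^ i ≤ m ^ r := by
    intro i hi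
    calc m * 2 ^ i ≤ m * 2 ^ k := by gcongr; norm_num
      _ ≤ m * m ^ (r - 1) := by gcongr
      _ = m ^ r := hmr
  have key := nested hr h k (fun i => range (m * 2 ^ i)) (fun i _ => by
      rw [range_subset_range]; rw [pow_succ]; have := Nat.zero_le (m * 2 ^ i); nlinarith)
    (fun i _ => by simp only [card_range]; rw [pow_succ]; nlinarith) 
    (by simp; omega) (by simpa using hle k le_rfl) (16 * r / L) (by positivity) (by
      intro i hi
      have h1 := hcon (m * 2 ^ i) (Nat.le_mul_of_pos_right _ (by positivity)) (hle i hi)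
      simp only [card_range, pow_zero, mul_one]
      refine le_of_eq_of_le ?_ h1.le
      push_cast
      field_simp)
  have h2 : ((k:ℝ) + 1) * 2 ^ r ≤ 2 * Real.log m := by
    rw [div_pow, hLr] at key
    have e : (16 * (r:ℝ)) ^ r = 2 ^ r * (8 * r) ^ r := by rw [← mul_pow]; ring_nf
    rw [e] at key
    have h3 : (0:ℝ) < (8 * (r:ℝ)) ^ r := by positivity
    have h4 : ((k:ℝ) + 1) * (2 ^ r * (8 * (r:ℝ)) ^ r / Real.log m) 
        = (((k:ℝ) + 1) * 2 ^ r) * (8 * (r:ℝ)) ^ r / Real.log m := by ring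
    rw [h4, div_le_iff₀ hlog] at key
    have h5 : (((k:ℝ) + 1) * 2 ^ r) * (8 * (r:ℝ)) ^ r ≤ (2 * Real.log m) * (8 * (r:ℝ)) ^ r := by
      linarith [key]
    exact le_of_mul_le_mul_right h5 h3
  have h6 : (4:ℝ) ≤ 2 ^ r := by
    calc (4:ℝ) = 2 ^ 2 := by norm_num
      _ ≤ 2 ^ r := pow_le_pow_right₀ (by norm_num) hr
  have h7 : Real.log m < ((k:ℝ) + 1) := by
    have h8 : m < 2 ^ (k + 1) := lt_of_le_of_lt (Nat.le_self_pow (by omega) m) hk2
    have h9 : Real.log m < Real.log ((2:ℝ) ^ (k + 1)) := 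
      Real.log_lt_log (by positivity) (by exact_mod_cast h8)
    rw [Real.log_pow] at h9
    have h10 : Real.log 2 ≤ 1 := by linarith [Real.log_two_lt_d9]
    push_cast at h9
    have : ((k:ℝ) + 1) * Real.log 2 ≤ ((k:ℝ) + 1) * 1 := by gcongr
    linarith
  have h11 : ((k:ℝ) + 1) * 4 ≤ ((k:ℝ) + 1) * 2 ^ r := by gcongr
  linarith [show (0:ℝ) ≤ k by positivity]

/-- small degrees -/
theorem small_degree {r : ℕ} {G : SimpleGraph ℕ} (hr : 2 ≤ r)
    (h : (completeBipartiteGraph (Fin r) (Fin r)).Free G) (N : ℕ) :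
    ∃ n, N ≤ n ∧ 2 ≤ n ∧ ∃ x < n, (dg G (range n) x : ℝ)
      ≤ 32 * r * (n : ℝ) ^ (1 - 1 / (r : ℝ)) / (Real.log n) ^ (1 / (r : ℝ)) := by
  classical
  obtain ⟨n, h1, h2, h3⟩ := infinite_graph hr h (max N 2) (le_max_right _ _)
  set m := max N 2 with hm
  have hm2 : 2 ≤ m := le_max_right _ _
  have hr0 : (0:ℝ) < r := by exact_mod_cast (by omega : 0 < r)
  have hm1 : (1:ℝ) < m := by exact_mod_cast (by omega : 1 < m)
  have hlog : 0 < Real.log m := Real.log_pos hm1
  refine ⟨n, (le_max_left _ _).trans h1, by omega, ?_⟩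
  by_contra hcon
  push Not at hcon
  have hn1 : (1:ℝ) < n := by exact_mod_cast (by omega : 1 < n)
  have hlogn : 0 < Real.log n := Real.log_pos hn1
  have hln : (Real.log n) ^ (1 / (r : ℝ)) ≤ 2 * (Real.log m) ^ (1 / (r : ℝ)) := by
    have e1 : Real.log n ≤ r * Real.log m := by
      rw [← Real.log_pow]
      exact Real.log_le_log (by positivity) (by exact_mod_cast h2)
    have e2 : (r : ℝ) ^ (1 / (r : ℝ)) ≤ 2 := by
      have : (r:ℝ) ≤ 2 ^ (r:ℝ) := by
        rw [Real.rpow_natCast]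
        exact_mod_cast Nat.lt_two_pow_self.le
      calc (r : ℝ) ^ (1 / (r : ℝ)) ≤ (2 ^ (r:ℝ)) ^ (1 / (r : ℝ)) := by gcongr
        _ = 2 := by rw [← Real.rpow_mul (by norm_num), mul_one_div_cancel hr0.ne', Real.rpow_one]
    calc (Real.log n) ^ (1 / (r : ℝ)) ≤ (r * Real.log m) ^ (1 / (r : ℝ)) := by gcongr
      _ = (r : ℝ) ^ (1 / (r : ℝ)) * (Real.log m) ^ (1 / (r : ℝ)) := Real.mul_rpow hr0.le hlog.le
      _ ≤ _ := by gcongr
  -- the sum of the degrees of the first m vertices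
  have e3 : pairs G (range m) (range n) = ∑ x ∈ range m, dg G (range n) x := by
    unfold pairs dg
    rw [card_filter, sum_product]
    refine sum_congr rfl fun y _ => ?_
    rw [card_filter]
    refine sum_congr rfl fun z _ => ?_
    simp only [G.adj_comm]
  rw [e3] at h3
  push_cast at h3
  have e4 : (m : ℝ) * (32 * r * (n : ℝ) ^ (1 - 1 / (r : ℝ)) / (Real.log n) ^ (1 / (r : ℝ)))
      < ∑ x ∈ range m, (dg G (range n) x : ℝ) := by
    rw [← nsmul_eq_mul, ← card_range m, ← sum_const, card_range]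
    refine sum_lt_sum_of_nonempty (by simp; omega) fun x hx => ?_
    rw [mem_range] at hx
    exact hcon x (by omega)
  have e5 : 16 * r * m * (n : ℝ) ^ (1 - 1 / (r : ℝ)) / (Real.log m) ^ (1 / (r : ℝ))
      ≤ (m : ℝ) * (32 * r * (n : ℝ) ^ (1 - 1 / (r : ℝ)) / (Real.log n) ^ (1 / (r : ℝ))) := by
    have p1 : 0 < (Real.log n) ^ (1 / (r : ℝ)) := by positivity
    have p2 : 0 < (Real.log m) ^ (1 / (r : ℝ)) := by positivity
    rw [← mul_div_assoc, div_le_div_iff₀ p2 p1]
    calc 16 * r * m * (n : ℝ) ^ (1 - 1 / (r : ℝ)) * (Real.log n) ^ (1 / (r : ℝ))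
        ≤ 16 * r * m * (n : ℝ) ^ (1 - 1 / (r : ℝ)) * (2 * (Real.log m) ^ (1 / (r : ℝ))) := by gcongr
      _ = _ := by ring
  linarith

end Pool.Agent.H86.NE
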